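import Pool.Agent.W414.GP.PosA

/-!
# Project GP: the positive part
-/

set_option autoImplicit false

open Finset MeasureTheory ProbabilityTheory Filter Topology
open scoped ENNReal

namespace Pool.Agent.W414.GP

open Pool.Agent.W844.GP
open Pool.Agent.W844.VG (V stp nm)

variable {d : ℕ}

/-- dyadic thresholds -/
noncomputable def tau (β : ℝ) (j : ℕ) : ℝ := 2 ^ j / (j : ℝ) ^ (1 + β)

lemma tau_nonneg (β : ℝ) (j : ℕ) : 0 ≤ tau β j := by unfold tau; positivity

lemma exists_J1 (β : ℝ) : ∃ J1 : ℕ, 1 ≤ J1 ∧ ∀ j : ℕ, J1 ≤ j →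
    (j : ℝ) ^ (1 + β) ≤ Real.exp (Real.log 2 / 2 * j) := by
  have hl2 : 0 < Real.log 2 := Real.log_pos (by norm_num)
  have h := (tendsto_rpow_mul_exp_neg_mul_atTop_nhds_zero (1 + β) (Real.log 2 / 2)
    (by positivity)).comp tendsto_natCast_atTop_atTop
  have h1 : ∀ᶠ j : ℕ in atTop, (j : ℝ) ^ (1 + β) * Real.exp (-(Real.log 2 / 2) * j) < 1 :=
    h.eventually (gt_mem_nhds zero_lt_one)
  obtain ⟨J, hJ⟩ := eventually_atTop.1 h1
  refine ⟨max J 1, le_max_right _ _, fun j hj => ?_⟩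
  have h2 := hJ j ((le_max_left _ _).trans hj)
  have h3 : Real.exp (-(Real.log 2 / 2) * j) = (Real.exp (Real.log 2 / 2 * j))⁻¹ := by
    rw [← Real.exp_neg]; congr 1; ring
  rw [h3, ← div_eq_mul_inv, div_lt_one (Real.exp_pos _)] at h2
  exact h2.le

lemma sum_tau_le (hd : 1 ≤ d) {α : ℝ} (hα : 0 < α) : ∃ (J1 : ℕ) (C' : ℝ), 1 ≤ J1 ∧ 0 ≤ C' ∧
    ∀ (F : Finset ℕ) (x : ℝ), (∀ j ∈ F, J1 ≤ j ∧ tau (α / d) j < x) →
      ∑ j ∈ F, ((2:ℝ) ^ j) ^ d ≤ C' * gm d α x := by
  obtain ⟨J1, hJ1, hexp⟩ := exists_J1 (α / d)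
  have hl2 : 0 < Real.log 2 := Real.log_pos (by norm_num)
  have hd0 : (0:ℝ) < d := by exact_mod_cast hd
  refine ⟨J1, 2 * (2 / Real.log 2) ^ ((d:ℝ) + α), hJ1, by positivity, fun F x hF => ?_⟩
  have hg := gm_nonneg d α x
  rcases F.eq_empty_or_nonempty with rfl | hne
  · rw [sum_empty]; positivity
  set J := F.max' hne with hJdef
  obtain ⟨hJ, hx⟩ := hF J (F.max'_mem hne)
  have hJ0 : (0:ℝ) < J := by exact_mod_cast (by omega : 0 < J)
  have h2 : F ⊆ range (J + 1) := fun k hk => mem_range.2 (Nat.lt_succ_of_le (F.le_max' k hk))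
  have h3 : ∑ j ∈ F, ((2:ℝ) ^ j) ^ d ≤ 2 * ((2:ℝ) ^ J) ^ d := by
    have e : ∀ j : ℕ, ((2:ℝ) ^ j) ^ d = (2 ^ d) ^ j := fun j => by rw [← pow_mul, ← pow_mul, mul_comm]
    have h4 : (2:ℝ) ≤ 2 ^ d := by
      calc (2:ℝ) = 2 ^ 1 := by norm_num
        _ ≤ 2 ^ d := pow_le_pow_right₀ (by norm_num) hd
    simp only [e]
    calc _ ≤ ∑ j ∈ range (J + 1), ((2:ℝ) ^ d) ^ j :=
          sum_le_sum_of_subset_of_nonneg h2 (fun _ _ _ => by positivity)
      _ ≤ _ := geom_le h4 J
  have hx0 : 0 < x := lt_of_le_of_lt (tau_nonneg _ _) hx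
  have hJp : (0:ℝ) < (J:ℝ) ^ (1 + α / d) := by positivity
  have h5 : (2:ℝ) ^ J < x * (J:ℝ) ^ (1 + α / d) := by
    unfold tau at hx
    rwa [div_lt_iff₀ hJp] at hx
  have h6 : Real.log 2 / 2 * J < Real.log x := by
    have h7 := hexp J hJ
    have h8 : (2:ℝ) ^ J = Real.exp (Real.log 2 / 2 * J) * Real.exp (Real.log 2 / 2 * J) := by
      rw [← Real.exp_add, ← Real.rpow_natCast, Real.rpow_def_of_pos (by norm_num)]
      congr 1; ring
    have h9 : Real.exp (Real.log 2 / 2 * J) < x := by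
      have h10 := Real.exp_pos (Real.log 2 / 2 * J)
      rw [h8] at h5
      have h11 : x * (J:ℝ) ^ (1 + α / d) ≤ x * Real.exp (Real.log 2 / 2 * J) :=
        mul_le_mul_of_nonneg_left h7 hx0.le
      exact lt_of_mul_lt_mul_right (h5.trans_le h11) h10.le
    rwa [← Real.exp_lt_exp, Real.exp_log hx0]
  have hlogx : 0 < Real.log x := lt_trans (by positivity) h6
  have h7 : (J:ℝ) ≤ 2 / Real.log 2 * Real.log x := by
    rw [div_mul_eq_mul_div, le_div_iff₀ hl2]
    linarith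
  have h8 : ((2:ℝ) ^ J) ^ d ≤ x ^ d * ((2 / Real.log 2) ^ ((d:ℝ) + α) * Real.log x ^ ((d:ℝ) + α)) := by
    calc ((2:ℝ) ^ J) ^ d ≤ (x * (J:ℝ) ^ (1 + α / d)) ^ d := pow_le_pow_left₀ (by positivity) h5.le _
      _ = x ^ d * (J:ℝ) ^ ((d:ℝ) + α) := by
          rw [mul_pow, ← Real.rpow_natCast ((J:ℝ) ^ (1 + α / d)), ← Real.rpow_mul hJ0.le]
          congr 2
          field_simp
      _ ≤ x ^ d * (2 / Real.log 2 * Real.log x) ^ ((d:ℝ) + α) := by gcongr
      _ = _ := by rw [Real.mul_rpow (by positivity) hlogx.le]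
  have h9 : gm d α x = x ^ d * Real.log x ^ ((d:ℝ) + α) := by
    unfold gm
    rw [max_eq_left hx0.le, max_eq_left hlogx.le]
  rw [h9]
  linarith

lemma tsum_box_lt_top (hd : 1 ≤ d) {ν : Measure ℝ} [IsProbabilityMeasure ν] {α : ℝ} (hα : 0 < α)
    (hM : ∫⁻ x, ENNReal.ofReal (gm d α x) ∂ν < ⊤) : ∃ J1 : ℕ, 1 ≤ J1 ∧
    ∑' j : ℕ, (if J1 ≤ j then ENNReal.ofReal (((2:ℝ) ^ j) ^ d) * ν (Set.Ioi (tau (α / d) j)) else 0)
      < ⊤ := by
  obtain ⟨J1, C', hJ1, hC', hsum⟩ := sum_tau_le hd hα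
  refine ⟨J1, hJ1, ?_⟩
  refine lt_of_le_of_lt (b := ENNReal.ofReal C' * ∫⁻ x, ENNReal.ofReal (gm d α x) ∂ν) ?_
    (ENNReal.mul_lt_top ENNReal.ofReal_lt_top hM)
  apply ENNReal.tsum_le_of_sum_range_le
  intro n
  have h1 : ∀ j : ℕ, (if J1 ≤ j then ENNReal.ofReal (((2:ℝ) ^ j) ^ d) * ν (Set.Ioi (tau (α / d) j))
      else 0) = ∫⁻ x, (if J1 ≤ j ∧ tau (α / d) j < x then ENNReal.ofReal (((2:ℝ) ^ j) ^ d) else 0) ∂ν := by
    intro j
    by_cases hj : J1 ≤ j
    · simp only [hj, true_and, if_true]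
      rw [← lintegral_indicator_const measurableSet_Ioi]
      congr 1
    · simp only [hj, false_and, if_false, lintegral_const, zero_mul]
  have h2 : ∀ j ∈ range n, Measurable fun x : ℝ =>
      (if J1 ≤ j ∧ tau (α / d) j < x then ENNReal.ofReal (((2:ℝ) ^ j) ^ d) else 0) := by
    intro j _
    by_cases hj : J1 ≤ j
    · simp only [hj, true_and]
      exact Measurable.ite measurableSet_Ioi measurable_const measurable_const
    · simp only [hj, false_and, if_false]
      exact measurable_const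
  simp only [h1]
  rw [← lintegral_finsetSum _ h2, ← lintegral_const_mul' _ _ ENNReal.ofReal_ne_top]
  apply lintegral_mono
  intro x
  simp only
  rw [← ENNReal.ofReal_mul hC', ← sum_filter, ← ENNReal.ofReal_sum_of_nonneg (fun _ _ => by positivity)]
  apply ENNReal.ofReal_le_ofReal
  apply hsum
  intro j hj
  exact (mem_filter.1 hj).2

theorem ae_box (hd : 1 ≤ d) {ν : Measure ℝ} [IsProbabilityMeasure ν] {α : ℝ} (hα : 0 < α)
    (hM : ∫⁻ x, ENNReal.ofReal (gm d α x) ∂ν < ⊤) :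
    ∀ᵐ w ∂law ν d, ∀ᶠ j : ℕ in atTop, ∀ z : V d, nm z ≤ 2 ^ j → w z ≤ tau (α / d) j := by
  obtain ⟨J1, hJ1, hlt⟩ := tsum_box_lt_top hd hα hM
  have h := ae_eventually_notMem (μ := law ν d)
    (s := fun j : ℕ => {w : V d → ℝ | J1 ≤ j ∧ ∃ z, nm z ≤ 2 ^ j ∧ tau (α / d) j < w z}) (by
      refine (lt_of_le_of_lt (ENNReal.tsum_le_tsum (g := fun j : ℕ => (3:ℝ≥0∞) ^ d *
        (if J1 ≤ j then ENNReal.ofReal (((2:ℝ) ^ j) ^ d) * ν (Set.Ioi (tau (α / d) j)) else 0)) ?_)
        ?_).ne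
      · intro j
        by_cases hj : J1 ≤ j
        · simp only [hj, true_and, if_true]
          refine (law_box ν (2 ^ j) (tau (α / d) j)).trans ?_
          rw [← mul_assoc]
          gcongr
          have h1 : (2 * 2 ^ j + 1) ≤ 3 * 2 ^ j := by
            have := Nat.one_le_two_pow (n := j)
            omega
          have h2 : ((2 * 2 ^ j + 1) ^ d : ℕ) ≤ 3 ^ d * (2 ^ j) ^ d := by
            rw [← mul_pow]
            exact Nat.pow_le_pow_left h1 d
          calc (((2 * 2 ^ j + 1 : ℕ) ^ d : ℕ) : ℝ≥0∞) ≤ ((3 ^ d * (2 ^ j) ^ d : ℕ) : ℝ≥0∞) := by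
                exact_mod_cast h2
            _ = _ := by
                have : ENNReal.ofReal (((2:ℝ) ^ j) ^ d) = (((2 ^ j) ^ d : ℕ) : ℝ≥0∞) := by
                  rw [← ENNReal.ofReal_natCast]
                  norm_cast
                rw [this]
                push_cast
                ring
        · simp [hj]
      · rw [ENNReal.tsum_mul_left]
        exact ENNReal.mul_lt_top (by simp) hlt)
  filter_upwards [h] with w hw
  filter_upwards [hw, eventually_ge_atTop J1] with j hj hj1 z hz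
  by_contra hlt'
  exact hj ⟨hj1, z, hz, not_le.1 hlt'⟩

/-- the number of allowed vertices -/
noncomputable def mk (C : ℝ) (d : ℕ) (ν : Measure ℝ) (n k : ℕ) : ℕ :=
  ⌈C * (n * ν.real (Set.Ioi ((2:ℝ) ^ k)) ^ ((1 : ℝ) / d) + 1) + 3 * Real.log n⌉₊

theorem ae_levels (hG : S_G) (hd : 1 ≤ d) (ν : Measure ℝ) [IsProbabilityMeasure ν] :
    ∃ C : ℝ, 0 < C ∧ ∀ᵐ w ∂law ν d, ∀ᶠ n : ℕ in atTop, ∀ k ≤ Nat.clog 2 n, ∀ l : List (V d),
      l.length = n → IsP (0 :: l) → ∀ S : Finset (V d), (∀ z ∈ S, z ∈ l ∧ (2:ℝ) ^ k < w z) →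
      (S.card : ℝ) ≤ C * (n * ν.real (Set.Ioi ((2:ℝ) ^ k)) ^ ((1 : ℝ) / d) + 1) +
        3 * Real.log n + 1 := by
  obtain ⟨C, hC, hmain⟩ := hG d hd
  refine ⟨C, hC, ?_⟩
  have h := ae_eventually_notMem (μ := law ν d)
    (s := fun n : ℕ => {w : V d → ℝ | 1 ≤ n ∧ ∃ k ∈ range (Nat.clog 2 n + 1),
      ∃ l : List (V d), l.length = n ∧ IsP (0 :: l) ∧
        ∃ S : Finset (V d), S.card = mk C d ν n k ∧ ∀ z ∈ S, z ∈ l ∧ (2:ℝ) ^ k < w z}) (by
      have hs : Summable fun n : ℕ => 2 * (n:ℝ) ^ (-2 : ℝ) := by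
        apply Summable.mul_left
        rw [Real.summable_nat_rpow]
        norm_num
      refine (lt_of_le_of_lt (ENNReal.tsum_le_tsum ?_) hs.tsum_ofReal_ne_top.lt_top).ne
      intro n
      by_cases hn : 1 ≤ n
      · have hn0 : (0:ℝ) < n := by exact_mod_cast hn
        have h1 : {w : V d → ℝ | 1 ≤ n ∧ ∃ k ∈ range (Nat.clog 2 n + 1),
            ∃ l : List (V d), l.length = n ∧ IsP (0 :: l) ∧
              ∃ S : Finset (V d), S.card = mk C d ν n k ∧ ∀ z ∈ S, z ∈ l ∧ (2:ℝ) ^ k < w z} ⊆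
            ⋃ k ∈ range (Nat.clog 2 n + 1), {w | ∃ l : List (V d), l.length = n ∧ IsP (0 :: l) ∧
              ∃ S : Finset (V d), S.card = mk C d ν n k ∧ ∀ z ∈ S, z ∈ l ∧ (2:ℝ) ^ k < w z} := by
          rintro w ⟨_, k, hk, hw⟩
          simp only [Set.mem_iUnion]
          exact ⟨k, hk, hw⟩
        refine (measure_mono h1).trans ((measure_biUnion_finset_le _ _).trans ?_)
        have h2 : ∀ k ∈ range (Nat.clog 2 n + 1), law ν d {w | ∃ l : List (V d), l.length = n ∧
            IsP (0 :: l) ∧ ∃ S : Finset (V d), S.card = mk C d ν n k ∧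
              ∀ z ∈ S, z ∈ l ∧ (2:ℝ) ^ k < w z} ≤ ENNReal.ofReal ((n:ℝ) ^ (-3 : ℝ)) := by
          intro k _
          have hlog : 0 ≤ Real.log n := Real.log_nonneg (by exact_mod_cast hn)
          have h3 := Nat.le_ceil (C * (n * ν.real (Set.Ioi ((2:ℝ) ^ k)) ^ ((1 : ℝ) / d) + 1) +
            3 * Real.log n)
          refine (hmain ν (2 ^ k) n (mk C d ν n k) hn ?_).trans ?_
          · unfold mk
            linarith
          · apply ENNReal.ofReal_le_ofReal
            rw [Real.rpow_def_of_pos hn0]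
            apply Real.exp_le_exp.2
            unfold mk
            have h4 : 0 ≤ C * (n * ν.real (Set.Ioi ((2:ℝ) ^ k)) ^ ((1 : ℝ) / d) + 1) := by positivity
            linarith
        refine (sum_le_sum h2).trans ?_
        rw [sum_const, card_range, nsmul_eq_mul]
        have h5 : Nat.clog 2 n ≤ n := Nat.clog_le_of_le_pow Nat.lt_two_pow_self.le
        have h6 : ((Nat.clog 2 n + 1 : ℕ) : ℝ≥0∞) ≤ ENNReal.ofReal (2 * n) := by
          rw [← ENNReal.ofReal_natCast]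
          apply ENNReal.ofReal_le_ofReal
          have : Nat.clog 2 n + 1 ≤ 2 * n := by omega
          exact_mod_cast this
        refine (mul_le_mul_left h6 _).trans ?_
        rw [← ENNReal.ofReal_mul (by positivity)]
        apply ENNReal.ofReal_le_ofReal
        apply le_of_eq
        rw [mul_assoc, ← Real.rpow_one_add' hn0.le (by norm_num)]
        norm_num
      · simp [hn])
  filter_upwards [h] with w hw
  filter_upwards [hw, eventually_ge_atTop 1] with n hn hn1 k hk l hl hP S hS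
  by_contra hcon
  rw [not_le] at hcon
  have hlog : 0 ≤ Real.log n := Real.log_nonneg (by exact_mod_cast hn1)
  have h1 : (mk C d ν n k : ℝ) < S.card := by
    have h2 := Nat.ceil_lt_add_one (a := C * (n * ν.real (Set.Ioi ((2:ℝ) ^ k)) ^ ((1 : ℝ) / d) + 1) +
            3 * Real.log n) (by positivity)
    unfold mk
    linarith
  have h2 : mk C d ν n k ≤ S.card := by exact_mod_cast h1.le
  obtain ⟨S', hS', hcard⟩ := Finset.exists_subset_card_eq h2
  exact hn ⟨hn1, k, mem_range.2 (by omega), l, hl, hP, S', hcard, fun z hz => hS z (hS' hz)⟩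

theorem tendsto_clog : Tendsto (Nat.clog 2) atTop atTop := by
  apply tendsto_atTop_mono (f := Nat.log 2)
  · intro n
    exact Nat.log_le_clog 2 n
  · exact tendsto_atTop_atTop.2 fun b => ⟨2 ^ b, fun n hn => Nat.le_log_of_pow_le (by norm_num) hn⟩

/-- the positive part -/
theorem pos (hG : S_G) : S_POS := by
  intro d hd ν _ α hα hM ε hε
  change ∫⁻ x, ENNReal.ofReal (gm d α x) ∂ν < ⊤ at hM
  obtain ⟨C, hC, hlev⟩ := ae_levels hG hd ν
  have hd0 : (0:ℝ) < d := by exact_mod_cast hd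
  set β := α / d with hβ
  have hβ0 : 0 < β := by positivity
  have hsum := summable_levels hd hα hM
  set f : ℕ → ℝ := fun k => (2:ℝ) ^ k * ν.real (Set.Ioi ((2:ℝ) ^ k)) ^ ((1 : ℝ) / d) with hf
  have hf0 : ∀ k, 0 ≤ f k := fun k => by rw [hf]; positivity
  obtain ⟨k0, hk0⟩ : ∃ k0 : ℕ, C * ∑' k, f (k + k0) < ε / 2 := by
    have h1 := (_root_.tendsto_sum_nat_add f).const_mul C
    rw [mul_zero] at h1
    exact (h1.eventually (gt_mem_nhds (by positivity : 0 < ε / 2))).exists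
  have hlim : Tendsto (fun j : ℕ => (C + 1 + 3 * (j:ℝ)) * (4 / (j:ℝ) ^ (1 + β))) atTop (𝓝 0) := by
    have h1 : Tendsto (fun j : ℕ => (j:ℝ) ^ (-(1 + β))) atTop (𝓝 0) :=
      (tendsto_rpow_neg_atTop (by positivity)).comp tendsto_natCast_atTop_atTop
    have h2 : Tendsto (fun j : ℕ => (j:ℝ) ^ (-β)) atTop (𝓝 0) :=
      (tendsto_rpow_neg_atTop hβ0).comp tendsto_natCast_atTop_atTop
    have h3 := (h1.const_mul (4 * (C + 1))).add (h2.const_mul 12)
    simp only [mul_zero, add_zero] at h3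
    refine h3.congr' ?_
    filter_upwards [eventually_ge_atTop 1] with j hj
    have hj0 : (0:ℝ) < j := by exact_mod_cast hj
    rw [Real.rpow_neg hj0.le, Real.rpow_neg hj0.le, Real.rpow_add hj0, Real.rpow_one]
    have : (0:ℝ) < (j:ℝ) ^ β := by positivity
    field_simp
    ring
  refine ⟨2 ^ k0, fun T hT => ?_⟩
  filter_upwards [ae_box hd hα hM, hlev] with w hw1 hw2
  have hev : ∀ᶠ j : ℕ in atTop, (C + 1 + 3 * (j:ℝ)) * (4 / (j:ℝ) ^ (1 + β)) < ε / 2 :=
    hlim.eventually (gt_mem_nhds (by positivity))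
  filter_upwards [tendsto_clog.eventually hw1, tendsto_clog.eventually hev, hw2,
    eventually_ge_atTop 2] with n h1 h2 h3 hn l hl hP
  set j := Nat.clog 2 n with hj
  have hn0 : (0:ℝ) < n := by exact_mod_cast (by omega : 0 < n)
  have hj1 : 1 ≤ j := Nat.clog_pos (by norm_num) hn
  have hj0 : (0:ℝ) < j := by exact_mod_cast hj1
  have hnj : n ≤ 2 ^ j := Nat.le_pow_clog (by norm_num) n
  have hjn : (2:ℝ) ^ j ≤ 2 * n := by
    have h4 : 2 ^ (j - 1) < n := Nat.pow_pred_clog_lt_self (by norm_num) (by omega)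
    have h5 : 2 ^ j = 2 * 2 ^ (j - 1) := by rw [← pow_succ', Nat.sub_add_cancel hj1]
    have h6 : 2 ^ j ≤ 2 * n := by omega
    exact_mod_cast h6
  have hjpow : (1:ℝ) ≤ (j:ℝ) ^ (1 + β) := Real.one_le_rpow (by exact_mod_cast hj1) (by positivity)
  have htau : tau β j ≤ 2 ^ j := by
    unfold tau
    exact div_le_self (by positivity) hjpow
  have htau2 : tau β j ≤ 2 * n / (j:ℝ) ^ (1 + β) := by
    unfold tau
    gcongr
  have hlogn : Real.log n ≤ j := by
    have h4 : Real.log n ≤ Real.log (2 ^ j) := Real.log_le_log hn0 (by exact_mod_cast hnj)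
    rw [Real.log_pow] at h4
    have h5 : Real.log 2 ≤ 1 := by
      have := Real.log_two_lt_d9
      linarith
    nlinarith
  have hlogn0 : 0 ≤ Real.log n := Real.log_nonneg (by exact_mod_cast (by omega : 1 ≤ n))
  have hwz : ∀ z ∈ l, w z ≤ tau β j := by
    intro z hz
    apply h1
    have h4 := nm_chain l 0 hP.1 z hz
    rw [sub_zero, hl] at h4
    exact h4.trans hnj
  have hnd : l.Nodup := (List.nodup_cons.1 hP.2).2
  classical
  unfold wt
  rw [← List.sum_toFinset _ hnd]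
  calc ∑ z ∈ l.toFinset, max (w z - T) 0
      ≤ ∑ z ∈ l.toFinset, ∑ k ∈ Ico k0 j, (if (2:ℝ) ^ k < w z then (2:ℝ) ^ k else 0) := by
        apply sum_le_sum
        intro z hz
        refine le_trans ?_ (level k0 (w z) j ((hwz z (List.mem_toFinset.1 hz)).trans htau))
        exact max_le_max (by linarith) le_rfl
    _ = ∑ k ∈ Ico k0 j, (2:ℝ) ^ k * ((l.toFinset.filter fun z => (2:ℝ) ^ k < w z).card : ℝ) := by
        rw [sum_comm]
        apply sum_congr rfl
        intro k _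
        rw [← sum_filter, sum_const, nsmul_eq_mul, mul_comm]
    _ ≤ ∑ k ∈ Ico k0 j, (C * n * f k + if (2:ℝ) ^ k < tau β j then
          (C + 1 + 3 * Real.log n) * 2 ^ k else 0) := by
        apply sum_le_sum
        intro k hk
        rw [mem_Ico] at hk
        have h4 := h3 k (by omega) l hl hP (l.toFinset.filter fun z => (2:ℝ) ^ k < w z) (by
          intro z hz
          rw [mem_filter, List.mem_toFinset] at hz
          exact hz)
        by_cases hk2 : (2:ℝ) ^ k < tau β j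
        · rw [if_pos hk2]
          have h5 : (0:ℝ) ≤ 2 ^ k := by positivity
          calc _ ≤ (2:ℝ) ^ k * (C * (n * ν.real (Set.Ioi ((2:ℝ) ^ k)) ^ ((1 : ℝ) / d) + 1) +
                3 * Real.log n + 1) := mul_le_mul_of_nonneg_left h4 h5
            _ = _ := by rw [hf]; ring
        · rw [if_neg hk2, add_zero]
          have h5 : (l.toFinset.filter fun z => (2:ℝ) ^ k < w z) = ∅ := by
            rw [filter_eq_empty_iff]
            intro z hz
            rw [not_lt]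
            rw [not_lt] at hk2
            exact (hwz z (List.mem_toFinset.1 hz)).trans hk2
          rw [h5, card_empty]
          have := hf0 k
          simp only [Nat.cast_zero, mul_zero]
          positivity
    _ = C * n * ∑ k ∈ Ico k0 j, f k + (C + 1 + 3 * Real.log n) *
          ∑ k ∈ (Ico k0 j).filter (fun k => (2:ℝ) ^ k < tau β j), (2:ℝ) ^ k := by
        rw [sum_add_distrib, ← mul_sum, ← sum_filter, ← mul_sum]
    _ ≤ C * n * ∑' k, f (k + k0) + (C + 1 + 3 * j) * (2 * (2 * n / (j:ℝ) ^ (1 + β))) := by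
        have h5 : ∑ k ∈ Ico k0 j, f k ≤ ∑' k, f (k + k0) := by
          rw [sum_Ico_eq_sum_range]
          have h6 : Summable fun k => f (k + k0) := (summable_nat_add_iff k0).2 hsum
          have h7 := h6.sum_le_tsum (range (j - k0)) (fun i _ => hf0 _)
          refine le_trans (le_of_eq ?_) h7
          exact sum_congr rfl fun i _ => by rw [add_comm]
        have h6 : ∑ k ∈ (Ico k0 j).filter (fun k => (2:ℝ) ^ k < tau β j), (2:ℝ) ^ k ≤
            2 * tau β j := pow2_sum_le (tau_nonneg _ _) fun k hk => (mem_filter.1 hk).2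
        have h7 : 2 * tau β j ≤ 2 * (2 * n / (j:ℝ) ^ (1 + β)) := by linarith
        have h8 : 0 ≤ ∑ k ∈ (Ico k0 j).filter (fun k => (2:ℝ) ^ k < tau β j), (2:ℝ) ^ k :=
          sum_nonneg fun _ _ => by positivity
        apply add_le_add
        · exact mul_le_mul_of_nonneg_left h5 (by positivity)
        · exact mul_le_mul (by linarith) (h6.trans h7) h8 (by positivity)
    _ = n * (C * ∑' k, f (k + k0)) + n * ((C + 1 + 3 * j) * (4 / (j:ℝ) ^ (1 + β))) := by
        ring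
    _ ≤ n * (ε / 2) + n * (ε / 2) := by gcongr
    _ = ε * n := by ring

end Pool.Agent.W414.GP
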