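import Pool.Agent.W844.GP.Defs

/-!
# Project GP: lemmas for the positive part
-/

set_option autoImplicit false

open Finset MeasureTheory ProbabilityTheory Filter Topology
open scoped ENNReal

namespace Pool.Agent.W414.GP

open Pool.Agent.W844.GP
open Pool.Agent.W844.VG (V stp nm)

variable {d : ℕ}

lemma nm_add_le (x y : V d) : nm (x + y) ≤ nm x + nm y := by
  unfold nm
  apply Finset.sup_le
  intro i hi
  have h1 : (x i).natAbs ≤ univ.sup fun i => (x i).natAbs :=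
    Finset.le_sup (f := fun i => (x i).natAbs) hi
  have h2 : (y i).natAbs ≤ univ.sup fun i => (y i).natAbs :=
    Finset.le_sup (f := fun i => (y i).natAbs) hi
  have h3 := Int.natAbs_add_le (x i) (y i)
  simp only [Pi.add_apply]
  omega

lemma nm_sub_le_of_adj {x y : V d} (h : adj x y) : nm (y - x) ≤ 1 := by
  unfold nm
  unfold adj at h
  apply Finset.sup_le
  intro i hi
  have h1 : |y i - x i| ≤ ∑ j, |y j - x j| :=
    Finset.single_le_sum (f := fun j => |y j - x j|) (fun j _ => abs_nonneg _) hi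
  rw [h] at h1
  simp only [Pi.sub_apply]
  rw [abs_le] at h1
  omega

lemma nm_chain : ∀ (l : List (V d)) (x : V d), (x :: l).IsChain adj → ∀ z ∈ l,
    nm (z - x) ≤ l.length
  | [], x, _, z, hz => by simp at hz
  | y :: l, x, h, z, hz => by
    rw [List.isChain_cons_cons] at h
    have h1 := nm_sub_le_of_adj h.1
    rcases List.mem_cons.1 hz with rfl | hz
    · simp only [List.length_cons]; omega
    · have h2 := nm_chain l y h.2 z hz
      have h3 := nm_add_le (z - y) (y - x)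
      rw [sub_add_sub_cancel] at h3
      simp only [List.length_cons]
      omega

lemma mem_box {n : ℕ} {z : V d} (h : nm z ≤ n) : z ∈ Pool.Agent.W844.VG.box d n := by
  unfold Pool.Agent.W844.VG.box
  rw [Fintype.mem_piFinset]
  intro i
  have h1 : (z i).natAbs ≤ nm z := Finset.le_sup (f := fun i => (z i).natAbs) (mem_univ i)
  rw [mem_Icc]
  omega

lemma card_box (n : ℕ) : (Pool.Agent.W844.VG.box d n).card = (2 * n + 1) ^ d := by
  unfold Pool.Agent.W844.VG.box
  rw [Fintype.card_piFinset_const, Int.card_Icc]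
  congr 1
  omega

lemma law_gt (ν : Measure ℝ) [IsProbabilityMeasure ν] (z : V d) (t : ℝ) :
    law ν d {w | t < w z} = ν (Set.Ioi t) :=
  (measurePreserving_eval_infinitePi (fun _ : V d => ν) z).measure_preimage
    measurableSet_Ioi.nullMeasurableSet

lemma law_box (ν : Measure ℝ) [IsProbabilityMeasure ν] (n : ℕ) (t : ℝ) :
    law ν d {w | ∃ z, nm z ≤ n ∧ t < w z} ≤ ((2 * n + 1 : ℕ) ^ d : ℕ) * ν (Set.Ioi t) := by
  have h1 : {w : V d → ℝ | ∃ z, nm z ≤ n ∧ t < w z} ⊆ ⋃ z ∈ Pool.Agent.W844.VG.box d n, {w | t < w z} := by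
    rintro w ⟨z, hz, hw⟩
    simp only [Set.mem_iUnion]
    exact ⟨z, mem_box hz, hw⟩
  calc law ν d {w | ∃ z, nm z ≤ n ∧ t < w z} ≤ law ν d (⋃ z ∈ Pool.Agent.W844.VG.box d n, {w | t < w z}) :=
        measure_mono h1
    _ ≤ ∑ z ∈ Pool.Agent.W844.VG.box d n, law ν d {w | t < w z} := measure_biUnion_finset_le _ _
    _ = _ := by
        simp only [law_gt]
        rw [sum_const, card_box, nsmul_eq_mul]

lemma geom_le {r : ℝ} (hr : 2 ≤ r) (J : ℕ) : ∑ j ∈ range (J + 1), r ^ j ≤ 2 * r ^ J := by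
  induction J with
  | zero => simp
  | succ J ih =>
    rw [sum_range_succ]
    have h1 : 0 ≤ r ^ J := by positivity
    have h2 : r ^ (J + 1) = r * r ^ J := by ring
    nlinarith

lemma pow2_sum_le {F : Finset ℕ} {t : ℝ} (ht : 0 ≤ t) (h : ∀ k ∈ F, (2:ℝ) ^ k < t) :
    ∑ k ∈ F, (2:ℝ) ^ k ≤ 2 * t := by
  rcases F.eq_empty_or_nonempty with rfl | hF
  · simp only [sum_empty]; positivity
  · have h1 := h _ (F.max'_mem hF)
    have h2 : F ⊆ range (F.max' hF + 1) := fun k hk =>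
      mem_range.2 (Nat.lt_succ_of_le (F.le_max' k hk))
    calc _ ≤ ∑ k ∈ range (F.max' hF + 1), (2:ℝ) ^ k :=
          sum_le_sum_of_subset_of_nonneg h2 (fun _ _ _ => by positivity)
      _ ≤ 2 * 2 ^ (F.max' hF) := geom_le le_rfl _
      _ ≤ 2 * t := by linarith

lemma level (k0 : ℕ) (x : ℝ) : ∀ j : ℕ, x ≤ 2 ^ j →
    max (x - 2 ^ k0) 0 ≤ ∑ k ∈ Ico k0 j, if (2:ℝ) ^ k < x then (2:ℝ) ^ k else 0 := by
  intro j
  induction j with
  | zero =>
    intro h
    have h1 : (1:ℝ) ≤ 2 ^ k0 := one_le_pow₀ (by norm_num)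
    have h2 : x - 2 ^ k0 ≤ 0 := by
      rw [pow_zero] at h
      linarith
    rw [max_eq_right h2]
    apply sum_nonneg
    intro k _
    split_ifs <;> positivity
  | succ j ih =>
    intro h
    rcases Nat.lt_or_ge j k0 with hj | hj
    · have h1 : (2:ℝ) ^ (j + 1) ≤ 2 ^ k0 := pow_le_pow_right₀ (by norm_num) (by omega)
      rw [max_eq_right (by linarith)]
      apply sum_nonneg
      intro k _
      split_ifs <;> positivity
    · rw [sum_Ico_succ_top hj]
      rcases le_or_gt x (2 ^ j) with hx | hx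
      · refine (ih hx).trans ?_
        have : (0:ℝ) ≤ if (2:ℝ) ^ j < x then (2:ℝ) ^ j else 0 := by split_ifs <;> positivity
        linarith
      · have h1 : ∑ k ∈ Ico k0 j, (if (2:ℝ) ^ k < x then (2:ℝ) ^ k else 0) = 2 ^ j - 2 ^ k0 := by
          rw [sum_congr rfl (g := fun k => (2:ℝ) ^ k) (fun k hk => if_pos ?_), geom_sum_Ico (by norm_num) hj]
          · norm_num
          · have : (2:ℝ) ^ k ≤ 2 ^ j := pow_le_pow_right₀ (by norm_num) (mem_Ico.1 hk).2.le
            linarith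
        rw [h1, if_pos hx]
        have h2 : (2:ℝ) ^ k0 ≤ 2 ^ j := pow_le_pow_right₀ (by norm_num) hj
        have h3 : (2:ℝ) ^ (j + 1) = 2 * 2 ^ j := by ring
        have h4 : (0:ℝ) < 2 ^ j := by positivity
        apply max_le <;> linarith

/-- the moment function -/
noncomputable def gm (d : ℕ) (α x : ℝ) : ℝ :=
  (max x 0) ^ d * (max (Real.log (max x 0)) 0) ^ ((d : ℝ) + α)

lemma gm_nonneg (d : ℕ) (α x : ℝ) : 0 ≤ gm d α x := by unfold gm; positivity

lemma markov {ν : Measure ℝ} [IsProbabilityMeasure ν] {G : ℝ → ℝ}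
    (hM : ∫⁻ x, ENNReal.ofReal (G x) ∂ν < ⊤) {t c : ℝ} (hc : 0 ≤ c) (h : ∀ x, t < x → c ≤ G x) :
    c * ν.real (Set.Ioi t) ≤ (∫⁻ x, ENNReal.ofReal (G x) ∂ν).toReal := by
  have h1 : ENNReal.ofReal c * ν (Set.Ioi t) ≤ ∫⁻ x, ENNReal.ofReal (G x) ∂ν := by
    calc ENNReal.ofReal c * ν (Set.Ioi t) = ∫⁻ _ in Set.Ioi t, ENNReal.ofReal c ∂ν := by
          rw [setLIntegral_const]
      _ ≤ ∫⁻ x in Set.Ioi t, ENNReal.ofReal (G x) ∂ν :=
          setLIntegral_mono' measurableSet_Ioi fun x hx => ENNReal.ofReal_le_ofReal (h x hx)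
      _ ≤ _ := setLIntegral_le_lintegral _ _
  have h2 := ENNReal.toReal_mono hM.ne h1
  rw [ENNReal.toReal_mul, ENNReal.toReal_ofReal hc] at h2
  exact h2

lemma summable_levels (hd : 1 ≤ d) {ν : Measure ℝ} [IsProbabilityMeasure ν] {α : ℝ} (hα : 0 < α)
    (hM : ∫⁻ x, ENNReal.ofReal (gm d α x) ∂ν < ⊤) :
    Summable fun k : ℕ => (2:ℝ) ^ k * ν.real (Set.Ioi ((2:ℝ) ^ k)) ^ ((1 : ℝ) / d) := by
  set M := (∫⁻ x, ENNReal.ofReal (gm d α x) ∂ν).toReal with hMdef
  have hM0 : 0 ≤ M := ENNReal.toReal_nonneg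
  have hd0 : (0:ℝ) < d := by exact_mod_cast hd
  have hd' : (d:ℝ) ≠ 0 := hd0.ne'
  have hl2 : 0 < Real.log 2 := Real.log_pos (by norm_num)
  set β := α / d with hβ
  have hβ0 : 0 < β := by positivity
  have hs : Summable fun k : ℕ => M ^ ((1:ℝ) / d) * (Real.log 2 ^ (-(1 + β)) * (k:ℝ) ^ (-(1 + β))) := by
    apply Summable.mul_left
    apply Summable.mul_left
    rw [Real.summable_nat_rpow]
    linarith
  apply Summable.of_norm_bounded_eventually_nat hs
  filter_upwards [eventually_ge_atTop 1] with k hk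
  rw [Real.norm_eq_abs, abs_of_nonneg (by positivity)]
  have hk0 : (0:ℝ) < k := by exact_mod_cast hk
  set b : ℝ := 2 ^ k * (k * Real.log 2) ^ (1 + β) with hb
  have hb0 : 0 < b := by positivity
  have hbd : b ^ d = (2 ^ k) ^ d * (k * Real.log 2) ^ ((d:ℝ) + α) := by
    rw [hb, mul_pow]
    congr 1
    rw [← Real.rpow_natCast, ← Real.rpow_mul (by positivity)]
    congr 1
    rw [hβ]
    field_simp
  have h1 : b ^ d * ν.real (Set.Ioi ((2:ℝ) ^ k)) ≤ M := by
    apply markov hM (by positivity)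
    intro x hx
    have hx0 : 0 < x := lt_trans (by positivity) hx
    unfold gm
    rw [hbd, max_eq_left hx0.le]
    have hlog : k * Real.log 2 ≤ Real.log x := by
      rw [← Real.log_pow]
      exact Real.log_le_log (by positivity) hx.le
    have hle : k * Real.log 2 ≤ max (Real.log x) 0 := hlog.trans (le_max_left _ _)
    gcongr
  have h2 : ν.real (Set.Ioi ((2:ℝ) ^ k)) ^ ((1:ℝ) / d) * b ≤ M ^ ((1:ℝ) / d) := by
    have h3 : (b ^ d * ν.real (Set.Ioi ((2:ℝ) ^ k))) ^ ((1:ℝ) / d) ≤ M ^ ((1:ℝ) / d) :=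
      Real.rpow_le_rpow (by positivity) h1 (by positivity)
    rw [Real.mul_rpow (by positivity) (by positivity), ← Real.rpow_natCast b d,
      ← Real.rpow_mul hb0.le, mul_one_div_cancel hd', Real.rpow_one] at h3
    linarith
  have h4 : (k * Real.log 2) ^ (-(1 + β)) = Real.log 2 ^ (-(1 + β)) * (k:ℝ) ^ (-(1 + β)) := by
    rw [Real.mul_rpow hk0.le hl2.le, mul_comm]
  rw [← h4]
  have h5 : (0:ℝ) < (k * Real.log 2) ^ (1 + β) := by positivity
  rw [Real.rpow_neg (by positivity), ← div_eq_mul_inv, le_div_iff₀ h5]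
  calc (2:ℝ) ^ k * ν.real (Set.Ioi ((2:ℝ) ^ k)) ^ ((1 : ℝ) / d) * (k * Real.log 2) ^ (1 + β)
      = ν.real (Set.Ioi ((2:ℝ) ^ k)) ^ ((1:ℝ) / d) * b := by rw [hb]; ring
    _ ≤ _ := h2

end Pool.Agent.W414.GP
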